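import Pool.Agent.Helper98.EY.StmtsC

/-! CMOM: crossings dominated by the step state, exponential moment. -/

namespace Pool.Agent.Helper98.EX

open Finset

theorem cmom_hle {N b : ℕ} (hb : b < N) (η : Cfg N) : hle (ht η b) η (bot N b) := by
  intro y
  rw [ht_bot hb.le]
  rcases le_or_gt y b with h | h
  · have := ht_le_sub η h
    omega
  · have := ht_anti η h.le
    omega

theorem cmom_dom {N b : ℕ} {r l : ℕ → ℝ} (h : Adm N r l) (hb : b < N) (φ : ℕ → ℝ)
    (hφ : Monotone φ) (m : ℕ) (η : Cfg N) :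
    ev r l (fun _ => full N) m (fun ξ => φ (ht ξ b)) η ≤
      ev r l (fun _ => full N) m (fun ξ => φ (ht ξ b + ht η b)) (bot N b) := by
  apply ev_couple h (fun _ => full N) (fun _ => full N) m (fun _ a c => hle (ht η b) a c)
  · intro i a c _ hac; exact hac
  · intro i a c x _ _ _ hac; exact hle_RmS hac _ x
  · intro i a c x _ _ _ hac; exact hle_LmS hac _ x
  · intro a c hac; exact hφ (hac b)
  · exact cmom_hle hb η

theorem cmom_one {N b : ℕ} {r l : ℕ → ℝ} (h : Adm N r l) (hb : b < N) (m : ℕ) (η : Cfg N) :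
    ev r l (fun _ => full N) m (fun ξ => (ht ξ b : ℝ)) η ≤
      (ht η b : ℝ) + ev r l (fun _ => full N) m (fun ξ => (ht ξ b : ℝ)) (bot N b) := by
  have h1 := cmom_dom h hb (fun n => (n : ℝ)) (fun a c hac => Nat.cast_le.mpr hac) m η
  refine h1.trans (le_of_eq ?_)
  have h2 : (fun ξ : Cfg N => ((ht ξ b + ht η b : ℕ) : ℝ)) =
      fun ξ => (ht ξ b : ℝ) + (fun _ => (ht η b : ℝ)) ξ := by
    funext ξ; push_cast; ring
  rw [h2, ev_add_fun _ m (fun ξ : Cfg N => (ht ξ b : ℝ)) (fun _ => (ht η b : ℝ)), ev_const]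
  ring

theorem cmom_iter {N b : ℕ} {r l : ℕ → ℝ} (h : Adm N r l) (hb : b < N) (m J : ℕ) (η : Cfg N) :
    ev r l (fun _ => full N) (m * J) (fun ξ => (ht ξ b : ℝ)) η ≤
      (ht η b : ℝ) + J * ev r l (fun _ => full N) m (fun ξ => (ht ξ b : ℝ)) (bot N b) := by
  set C := ev r l (fun _ => full N) m (fun ξ => (ht ξ b : ℝ)) (bot N b) with hC
  induction J generalizing η with
  | zero => simp
  | succ J ih =>
    have e : m * (J + 1) = m * J + m := by ring
    rw [e, ev_add]
    have h1 : ev r l (fun _ => full N) (m * J)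
        (ev r l (fun _ => full N) m (fun ξ => (ht ξ b : ℝ))) η ≤
        ev r l (fun _ => full N) (m * J) (fun ξ => (ht ξ b : ℝ) + (fun _ => C) ξ) η := by
      apply ev_mono h
      intro ξ
      exact cmom_one h hb m ξ
    refine h1.trans ?_
    rw [ev_add_fun _ _ (fun ξ : Cfg N => (ht ξ b : ℝ)) (fun _ => C), ev_const]
    have := ih η
    push_cast
    linarith

theorem cmom_exp1 {N b : ℕ} {r l : ℕ → ℝ} (h : Adm N r l) (hb : b < N) {lam : ℝ} (hl : 0 < lam)
    (m : ℕ) (η : Cfg N) :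
    ev r l (fun _ => full N) m (fun ξ => Real.exp (lam * ht ξ b)) η ≤
      Real.exp (lam * ht η b) *
        ev r l (fun _ => full N) m (fun ξ => Real.exp (lam * ht ξ b)) (bot N b) := by
  have h1 := cmom_dom h hb (fun n => Real.exp (lam * n)) (fun a c hac => by
    apply Real.exp_le_exp.mpr
    have : (a : ℝ) ≤ c := by exact_mod_cast hac
    exact mul_le_mul_of_nonneg_left this hl.le) m η
  refine h1.trans (le_of_eq ?_)
  rw [← ev_smul]
  congr 1
  funext ξ
  rw [← Real.exp_add]
  congr 1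
  push_cast
  ring

theorem cmom_expJ {N b : ℕ} {r l : ℕ → ℝ} (h : Adm N r l) (hb : b < N) {lam : ℝ} (hl : 0 < lam)
    (m J : ℕ) (η : Cfg N) :
    ev r l (fun _ => full N) (m * J) (fun ξ => Real.exp (lam * ht ξ b)) η ≤
      Real.exp (lam * ht η b) *
        (ev r l (fun _ => full N) m (fun ξ => Real.exp (lam * ht ξ b)) (bot N b)) ^ J := by
  set E := ev r l (fun _ => full N) m (fun ξ => Real.exp (lam * ht ξ b)) (bot N b) with hE
  have hE0 : 0 ≤ E := ev_nonneg h (fun _ => (Real.exp_pos _).le) _ _ _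
  induction J generalizing η with
  | zero => simp
  | succ J ih =>
    have e : m * (J + 1) = m * J + m := by ring
    rw [e, ev_add]
    have h1 : ev r l (fun _ => full N) (m * J)
        (ev r l (fun _ => full N) m (fun ξ => Real.exp (lam * ht ξ b))) η ≤
        ev r l (fun _ => full N) (m * J) (fun ξ => E * Real.exp (lam * ht ξ b)) η := by
      apply ev_mono h
      intro ξ
      have := cmom_exp1 h hb hl m ξ
      rw [mul_comm E]
      exact this
    refine h1.trans ?_
    rw [ev_smul]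
    have := mul_le_mul_of_nonneg_left (ih η) hE0
    refine this.trans (le_of_eq ?_)
    ring

/-- supersolution -/
noncomputable def cmomW (lam a : ℝ) (i : ℕ) (y : ℕ) : ℝ :=
  Real.exp (lam * y) * (1 + a * (Real.exp lam - 1)) ^ i - 1 - (Real.exp lam - 1) * (y + a * i)

theorem cmom_W_diff (lam a : ℝ) (i y : ℕ) : cmomW lam a i (y + 1) - cmomW lam a i y =
    (Real.exp lam - 1) * (Real.exp (lam * y) * (1 + a * (Real.exp lam - 1)) ^ i - 1) := by
  unfold cmomW
  have : Real.exp (lam * ((y + 1 : ℕ) : ℝ)) = Real.exp (lam * y) * Real.exp lam := by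
    rw [← Real.exp_add]; congr 1; push_cast; ring
  rw [this]
  push_cast
  ring

theorem cmom_W_mono {lam a : ℝ} (hl : 0 < lam) (ha : 0 ≤ a) (i : ℕ) :
    Monotone (cmomW lam a i) := by
  apply monotone_nat_of_le_succ
  intro y
  have h1 := cmom_W_diff lam a i y
  have h2 : 0 ≤ Real.exp lam - 1 := by linarith [Real.add_one_le_exp lam]
  have h3 : 1 ≤ Real.exp (lam * y) := Real.one_le_exp (by positivity)
  have h4 : 1 ≤ (1 + a * (Real.exp lam - 1)) ^ i := one_le_pow₀ (by nlinarith)
  have h5 : 1 ≤ Real.exp (lam * y) * (1 + a * (Real.exp lam - 1)) ^ i := by nlinarith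
  have h6 := mul_nonneg h2 (by linarith :
    0 ≤ Real.exp (lam * y) * (1 + a * (Real.exp lam - 1)) ^ i - 1)
  linarith

theorem cmom_W_stp {N b : ℕ} {r l : ℕ → ℝ} (h : Adm N r l) (h1 : 1 ≤ b) (hb : b < N) {lam : ℝ}
    (hl : 0 < lam) (i : ℕ) (η : Cfg N) :
    stp r l (full N) (fun ξ => cmomW lam (r b / (2 * N)) i (ht ξ b)) η ≤
      cmomW lam (r b / (2 * N)) (i + 1) (ht η b) := by
  obtain ⟨hr0, hr1, hl0, hl1⟩ := h b h1 hb
  have hN : (0 : ℝ) < 2 * N := by
    have : 0 < N := by omega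
    positivity
  have ha : 0 ≤ r b / (2 * N) := by positivity
  set a := r b / (2 * N) with ha'
  have hmono := cmom_W_mono hl ha i
  unfold stp
  have hsum : ∑ x ∈ full N, (r x * (cmomW lam a i (ht (RmS (full N) x η) b) -
      cmomW lam a i (ht η b)) + l x * (cmomW lam a i (ht (LmS (full N) x η) b) -
      cmomW lam a i (ht η b))) ≤ r b * (cmomW lam a i (ht η b + 1) - cmomW lam a i (ht η b)) := by
    rw [Finset.sum_eq_single_of_mem b (by rw [full, Finset.mem_Ico]; exact ⟨h1, hb⟩)]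
    · have e1 : cmomW lam a i (ht (RmS (full N) b η) b) ≤ cmomW lam a i (ht η b + 1) := by
        apply hmono
        unfold RmS
        split_ifs
        · exact ht_Rm_le η b b
        · exact Nat.le_succ _
      have e2 : cmomW lam a i (ht (LmS (full N) b η) b) ≤ cmomW lam a i (ht η b) := by
        apply hmono
        unfold LmS
        split_ifs
        · exact ht_Lm_le η b b
        · exact le_rfl
      have e3 := mul_le_mul_of_nonneg_left (sub_le_sub_right e1 (cmomW lam a i (ht η b))) hr0.le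
      have e4 := mul_nonneg hl0 (by linarith : 0 ≤ cmomW lam a i (ht η b) -
        cmomW lam a i (ht (LmS (full N) b η) b))
      linarith
    · intro x hx hxb
      have e1 : ht (RmS (full N) x η) b = ht η b := by
        unfold RmS
        rw [if_pos hx]
        exact ht_Rm_ne η (Ne.symm hxb)
      have e2 : ht (LmS (full N) x η) b = ht η b := by
        unfold LmS
        rw [if_pos hx]
        exact ht_Lm_ne η (Ne.symm hxb)
      rw [e1, e2]; ring
  have hdiv := div_le_div_of_nonneg_right hsum hN.le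
  have h2 : r b * (cmomW lam a i (ht η b + 1) - cmomW lam a i (ht η b)) / (2 * N) =
      a * (cmomW lam a i (ht η b + 1) - cmomW lam a i (ht η b)) := by
    rw [ha']; ring
  rw [h2, cmom_W_diff] at hdiv
  have h3 : cmomW lam a (i + 1) (ht η b) = cmomW lam a i (ht η b) + a * ((Real.exp lam - 1) *
      (Real.exp (lam * ht η b) * (1 + a * (Real.exp lam - 1)) ^ i - 1)) := by
    unfold cmomW
    push_cast
    ring
  rw [h3]
  linarith

theorem cmom_W_ev {N b : ℕ} {r l : ℕ → ℝ} (h : Adm N r l) (h1 : 1 ≤ b) (hb : b < N) {lam : ℝ}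
    (hl : 0 < lam) (m : ℕ) (η : Cfg N) :
    ev r l (fun _ => full N) m
      (fun ξ => Real.exp (lam * ht ξ b) - 1 - (Real.exp lam - 1) * ht ξ b) η ≤
      cmomW lam (r b / (2 * N)) m (ht η b) := by
  induction m generalizing η with
  | zero =>
    have : cmomW lam (r b / (2 * N)) 0 (ht η b) =
      Real.exp (lam * ht η b) - 1 - (Real.exp lam - 1) * ht η b := by
      unfold cmomW; push_cast; ring
    rw [this]
    exact le_rfl
  | succ m ih =>
    rw [ev_succ]
    refine le_trans ?_ (cmom_W_stp h h1 hb hl m η)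
    apply stp_mono h
    exact ih

theorem cmom_E {N b : ℕ} {r l : ℕ → ℝ} (h : Adm N r l) (h1 : 1 ≤ b) (hb : b < N) {lam : ℝ}
    (hl : 0 < lam) (hl2 : lam ≤ 1 / 2) (m : ℕ) (hm : r b * m ≤ 2 * N) :
    ev r l (fun _ => full N) m (fun ξ => Real.exp (lam * ht ξ b)) (bot N b) ≤
      Real.exp (lam * (1 + lam) * ev r l (fun _ => full N) m (fun ξ => (ht ξ b : ℝ)) (bot N b) +
        4 * lam ^ 2 * (r b * m / (2 * N)) ^ 2) := by
  obtain ⟨hr0, hr1, hl0, hl1⟩ := h b h1 hb
  have hN : (0 : ℝ) < 2 * N := by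
    have : 0 < N := by omega
    positivity
  set C := ev r l (fun _ => full N) m (fun ξ => (ht ξ b : ℝ)) (bot N b) with hC
  have hC0 : 0 ≤ C := ev_nonneg h (fun _ => Nat.cast_nonneg _) _ _ _
  have hW := cmom_W_ev h h1 hb hl m (bot N b)
  have hx : r b * m / (2 * N) ≤ 1 := by rw [div_le_one hN]; exact hm
  have hx0 : 0 ≤ r b * m / (2 * N) := by positivity
  set x := r b * m / (2 * N) with hxd
  set μ := Real.exp lam - 1 with hμ
  have hμ0 : 0 ≤ μ := by have := Real.add_one_le_exp lam; linarith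
  have hμ1 : μ ≤ lam * (1 + lam) := by
    have := Real.abs_exp_sub_one_sub_id_le (x := lam) (by rw [abs_of_pos hl]; linarith)
    have := (abs_le.mp this).2
    nlinarith
  have hμ2 : μ ≤ 2 * lam := by nlinarith
  have hb0 : ht (bot N b) b = 0 := by rw [ht_bot hb.le]; omega
  have hWm : cmomW lam (r b / (2 * N)) m (ht (bot N b) b) ≤ (μ * x) ^ 2 := by
    rw [hb0]
    unfold cmomW
    have e1 : (1 + r b / (2 * N) * μ) ^ m ≤ Real.exp (μ * x) := by
      have e2 : 1 + r b / (2 * N) * μ ≤ Real.exp (r b / (2 * N) * μ) := by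
        have := Real.add_one_le_exp (r b / (2 * N) * μ); linarith
      have e3 : (1 + r b / (2 * N) * μ) ^ m ≤ (Real.exp (r b / (2 * N) * μ)) ^ m :=
        pow_le_pow_left₀ (by positivity) e2 m
      refine e3.trans (le_of_eq ?_)
      rw [← Real.exp_nat_mul]
      congr 1
      rw [hxd]; ring
    have e4 : |μ * x| ≤ 1 := by
      rw [abs_of_nonneg (by positivity)]
      nlinarith
    have e5 := (abs_le.mp (Real.abs_exp_sub_one_sub_id_le e4)).2
    have e6 : μ * (((0 : ℕ) : ℝ) + r b / (2 * N) * m) = μ * x := by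
      rw [hxd]; push_cast; ring
    rw [e6]
    simp only [Nat.cast_zero, mul_zero, Real.exp_zero, one_mul]
    linarith
  have hEq : ev r l (fun _ => full N) m (fun ξ => Real.exp (lam * ht ξ b)) (bot N b) =
      ev r l (fun _ => full N) m
        (fun ξ => Real.exp (lam * ht ξ b) - 1 - μ * ht ξ b) (bot N b) + 1 + μ * C := by
    have e1 : (fun ξ : Cfg N => Real.exp (lam * ht ξ b)) =
        fun ξ => (fun ξ : Cfg N => Real.exp (lam * ht ξ b) - 1 - μ * ht ξ b) ξ +
          (fun ξ : Cfg N => (fun _ : Cfg N => (1 : ℝ)) ξ +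
            (fun ξ : Cfg N => μ * (fun ζ : Cfg N => (ht ζ b : ℝ)) ξ) ξ) ξ := by
      funext ξ; ring
    conv_lhs => rw [e1]
    rw [ev_add_fun _ m (fun ξ : Cfg N => Real.exp (lam * ht ξ b) - 1 - μ * ht ξ b),
      ev_add_fun _ m (fun _ : Cfg N => (1 : ℝ)), ev_const, ev_smul]
    ring
  rw [hEq]
  have e7 : μ * C ≤ lam * (1 + lam) * C := mul_le_mul_of_nonneg_right hμ1 hC0
  have e8 : (μ * x) ^ 2 ≤ 4 * lam ^ 2 * x ^ 2 := by
    have : μ ^ 2 ≤ 4 * lam ^ 2 := by nlinarith
    calc (μ * x) ^ 2 = μ ^ 2 * x ^ 2 := by ring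
      _ ≤ 4 * lam ^ 2 * x ^ 2 := mul_le_mul_of_nonneg_right this (sq_nonneg x)
  have e9 := Real.add_one_le_exp (lam * (1 + lam) * C + 4 * lam ^ 2 * x ^ 2)
  linarith

theorem st_CMOM : ST_CMOM := by
  intro N k b m J r l h hk h1 hb
  have hkb : ht (bot N k) b = k - b := ht_bot hk b
  refine ⟨?_, ?_⟩
  · have := cmom_iter h hb m J (bot N k)
    rwa [hkb] at this
  · intro v lam hl hl2 hm
    have hE := cmom_E h h1 hb hl hl2 m hm
    have hJ := cmom_expJ h hb hl m J (bot N k)
    rw [hkb] at hJ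
    set C := ev r l (fun _ => full N) m (fun ξ => (ht ξ b : ℝ)) (bot N b) with hC
    have hE0 : 0 ≤ ev r l (fun _ => full N) m (fun ξ => Real.exp (lam * ht ξ b)) (bot N b) :=
      ev_nonneg h (fun _ => (Real.exp_pos _).le) _ _ _
    have hmark : pr r l (fun _ => full N) (m * J) {ξ | v ≤ ht ξ b} (bot N k) ≤
        Real.exp (-(lam * v)) *
          ev r l (fun _ => full N) (m * J) (fun ξ => Real.exp (lam * ht ξ b)) (bot N k) := by
      unfold pr
      rw [← ev_smul]
      apply ev_mono h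
      intro ξ
      rw [← Real.exp_add]
      by_cases hv : ξ ∈ {ξ : Cfg N | v ≤ ht ξ b}
      · rw [ind_of_mem hv]
        apply Real.one_le_exp
        have hv' : (v : ℝ) ≤ ht ξ b := by exact_mod_cast (show v ≤ ht ξ b from hv)
        nlinarith
      · rw [ind_of_not_mem hv]
        exact (Real.exp_pos _).le
    refine hmark.trans ?_
    have e1 : (ev r l (fun _ => full N) m (fun ξ => Real.exp (lam * ht ξ b)) (bot N b)) ^ J ≤
        Real.exp (J * (lam * (1 + lam) * C + 4 * lam ^ 2 * (r b * m / (2 * N)) ^ 2)) := by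
      rw [Real.exp_nat_mul]
      exact pow_le_pow_left₀ hE0 hE J
    have e2 := mul_le_mul_of_nonneg_left e1 (Real.exp_pos (lam * ((k - b : ℕ) : ℝ))).le
    have e3 := mul_le_mul_of_nonneg_left (hJ.trans e2) (Real.exp_pos (-(lam * v))).le
    refine e3.trans (le_of_eq ?_)
    rw [← Real.exp_add, ← Real.exp_add]
    congr 1
    ring

end Pool.Agent.Helper98.EX
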