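import Mathlib
import Pool.Agent.Helper98.EY.StmtsB

set_option autoImplicit false

namespace Pool.Agent.Helper98.EX

open MeasureTheory ProbabilityTheory Filter Topology

lemma evshal_measRR {Ω : Type} [MeasurableSpace Ω] (X : ℕ → Ω → ℝ) (N z x : ℕ)
    (hX : ∀ j, z ≤ j → j ≤ x → Measurable (X j)) :
    Measurable (fun ω => RR (rE (EE X ω)) (mE N (EE X ω)) z x) := by
  unfold RR
  refine Finset.measurable_fun_prod _ fun b hb => ?_
  rw [Finset.mem_Ioc] at hb
  have h1 : Measurable (fun ω => mE N (EE X ω) b) := by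
    show Measurable (fun ω => max (1 - X b ω) ((N : ℝ) ^ (-100 : ℝ)))
    exact (measurable_const.sub (hX b (by omega) (by omega))).max measurable_const
  have h2 : Measurable (fun ω => rE (EE X ω) b) := hX (b - 1) (by omega) (by omega)
  exact h1.div h2

lemma evshal_meas {Ω : Type} [MeasurableSpace Ω] (X : ℕ → Ω → ℝ) (N w g : ℕ) (D : ℝ)
    (hg : 6 * w ≤ g) (hX : ∀ j, g ≤ j + 6 * w → j < g + 6 * w → Measurable (X j)) :
    MeasurableSet {ω | Shal (rE (EE X ω)) (mE N (EE X ω)) D w g} := by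
  have h1 : MeasurableSet {ω | ∀ z x, g ≤ z + 6 * w → z ≤ x → x < g + 6 * w →
      RR (rE (EE X ω)) (mE N (EE X ω)) z x ≤ D} := by
    simp only [Set.ofPred_forall]
    refine MeasurableSet.iInter fun z => MeasurableSet.iInter fun x =>
      MeasurableSet.iInter fun h1 => MeasurableSet.iInter fun h2 => MeasurableSet.iInter fun h3 => ?_
    exact measurableSet_le (evshal_measRR X N z x
      (fun j hj1 hj2 => hX j (by omega) (by omega))) measurable_const
  have h2 : MeasurableSet {ω | ∀ b, g < b + 6 * w → b < g + 6 * w → 1 ≤ D * rE (EE X ω) b} := by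
    simp only [Set.ofPred_forall]
    refine MeasurableSet.iInter fun b => MeasurableSet.iInter fun h1 =>
      MeasurableSet.iInter fun h2 => ?_
    have h3 : Measurable (fun ω => rE (EE X ω) b) := hX (b - 1) (by omega) (by omega)
    exact measurableSet_le measurable_const (measurable_const.mul h3)
  exact h1.inter h2

lemma evshal_markov {Ω : Type} [MeasurableSpace Ω] (P : Measure Ω) (f : Ω → ℝ)
    (hf : Measurable f) (C D : ℝ) (hD : 0 < D)
    (h : ∫⁻ ω, ENNReal.ofReal (f ω) ∂P ≤ ENNReal.ofReal C) :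
    P {ω | D ≤ f ω} ≤ ENNReal.ofReal (C / D) := by
  have h1 : {ω | D ≤ f ω} ⊆ {ω | ENNReal.ofReal D ≤ ENNReal.ofReal (f ω)} := fun ω hω =>
    ENNReal.ofReal_le_ofReal hω
  refine (measure_mono h1).trans ?_
  refine (meas_ge_le_lintegral_div hf.ennreal_ofReal.aemeasurable
    (ENNReal.ofReal_pos.2 hD).ne' ENNReal.ofReal_ne_top).trans ?_
  rw [ENNReal.ofReal_div_of_pos hD]
  exact ENNReal.div_le_div_right h _

lemma evshal_single {Ω : Type} [MeasurableSpace Ω] (P : Measure Ω) (X : ℕ → Ω → ℝ)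
    (hI : IIDE P X) (N w g : ℕ) (C D : ℝ) (hC : 0 < C) (hD : 0 < D) (hw : 1 ≤ w)
    (hg : 6 * w ≤ g) (h1 : ∀ z x : ℕ, z ≤ x →
      ∫⁻ ω, ENNReal.ofReal (RR (rE (EE X ω)) (mE N (EE X ω)) z x) ∂P ≤ ENNReal.ofReal C)
    (h2 : ∀ z : ℕ, 1 ≤ z →
      ∫⁻ ω, ENNReal.ofReal (vh (rE (EE X ω)) (mE N (EE X ω)) z z) ∂P ≤ ENNReal.ofReal C) :
    P {ω | ¬ Shal (rE (EE X ω)) (mE N (EE X ω)) D w g} ≤
      ENNReal.ofReal (156 * (w : ℝ) ^ 2 * (C / D)) := by
  classical
  set s : Finset ℕ := Finset.Ico (g - 6 * w) (g + 6 * w) with hs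
  have hcard : s.card ≤ 12 * w := by
    rw [hs, Nat.card_Ico]; omega
  set A : ℕ × ℕ → Set Ω := fun q =>
    {ω | q.1 ≤ q.2 ∧ D ≤ RR (rE (EE X ω)) (mE N (EE X ω)) q.1 q.2} with hA
  set B : ℕ → Set Ω := fun b =>
    {ω | 1 ≤ b ∧ D ≤ vh (rE (EE X ω)) (mE N (EE X ω)) b b} with hB
  have hsub : {ω | ¬ Shal (rE (EE X ω)) (mE N (EE X ω)) D w g} ⊆
      (⋃ q ∈ s ×ˢ s, A q) ∪ ⋃ b ∈ s, B b := by
    intro ω hω
    by_contra hcon
    rw [Set.mem_union, not_or] at hcon
    obtain ⟨hc1, hc2⟩ := hcon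
    refine hω ⟨fun z x hz hzx hx => ?_, fun b hb1 hb2 => ?_⟩
    · by_contra hlt
      refine hc1 (Set.mem_biUnion (x := (z, x)) ?_ ⟨hzx, (not_le.1 hlt).le⟩)
      rw [Finset.mem_coe, Finset.mem_product, hs, Finset.mem_Ico, Finset.mem_Ico]
      dsimp only
      omega
    · by_contra hlt
      rw [not_le] at hlt
      rcases Nat.eq_zero_or_pos b with hb0 | hb0
      · exfalso
        omega
      · refine hc2 (Set.mem_biUnion (x := b) ?_ ⟨hb0, ?_⟩)
        · rw [Finset.mem_coe, hs, Finset.mem_Ico]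
          omega
        · have hr : 0 < rE (EE X ω) b := (hI.rng (b - 1) ω).1
          have h3 : vh (rE (EE X ω)) (mE N (EE X ω)) b b = 1 / rE (EE X ω) b := by
            unfold vh RR
            rw [Finset.Ioc_self, Finset.prod_empty]
          rw [h3, le_div_iff₀ hr]
          exact hlt.le
  have hAP : ∀ q ∈ s ×ˢ s, P (A q) ≤ ENNReal.ofReal (C / D) := by
    intro q _
    by_cases hq : q.1 ≤ q.2
    · have h3 : A q = {ω | D ≤ RR (rE (EE X ω)) (mE N (EE X ω)) q.1 q.2} := by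
        ext ω
        simp [hA, hq]
      rw [h3]
      exact evshal_markov P _ (evshal_measRR X N q.1 q.2 (fun j _ _ => hI.meas j)) C D hD
        (h1 q.1 q.2 hq)
    · have h3 : A q = ∅ := by
        ext ω
        simp [hA, hq]
      rw [h3, measure_empty]
      exact zero_le
  have hBP : ∀ b ∈ s, P (B b) ≤ ENNReal.ofReal (C / D) := by
    intro b _
    by_cases hb : 1 ≤ b
    · have h3 : B b = {ω | D ≤ vh (rE (EE X ω)) (mE N (EE X ω)) b b} := by
        ext ω
        simp [hB, hb]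
      rw [h3]
      refine evshal_markov P _ ?_ C D hD (h2 b hb)
      unfold vh
      exact (evshal_measRR X N b b (fun j _ _ => hI.meas j)).div (hI.meas (b - 1))
    · have h3 : B b = ∅ := by
        ext ω
        simp [hB, hb]
      rw [h3, measure_empty]
      exact zero_le
  have hCD : 0 ≤ C / D := by positivity
  have h5 : P (⋃ q ∈ s ×ˢ s, A q) ≤ ENNReal.ofReal (144 * (w : ℝ) ^ 2 * (C / D)) := by
    refine (measure_biUnion_finset_le _ _).trans ?_
    refine (Finset.sum_le_sum hAP).trans ?_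
    rw [Finset.sum_const, Finset.card_product, nsmul_eq_mul, ← ENNReal.ofReal_natCast,
      ← ENNReal.ofReal_mul (by positivity)]
    refine ENNReal.ofReal_le_ofReal (mul_le_mul_of_nonneg_right ?_ hCD)
    have h6 : s.card * s.card ≤ 144 * w ^ 2 :=
      (Nat.mul_le_mul hcard hcard).trans (le_of_eq (by ring))
    exact_mod_cast h6
  have h6 : P (⋃ b ∈ s, B b) ≤ ENNReal.ofReal (12 * (w : ℝ) ^ 2 * (C / D)) := by
    refine (measure_biUnion_finset_le _ _).trans ?_
    refine (Finset.sum_le_sum hBP).trans ?_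
    rw [Finset.sum_const, nsmul_eq_mul, ← ENNReal.ofReal_natCast,
      ← ENNReal.ofReal_mul (by positivity)]
    refine ENNReal.ofReal_le_ofReal (mul_le_mul_of_nonneg_right ?_ hCD)
    have h6 : s.card ≤ 12 * w ^ 2 := hcard.trans (by nlinarith)
    exact_mod_cast h6
  refine (measure_mono hsub).trans ((measure_union_le _ _).trans ((add_le_add h5 h6).trans ?_))
  rw [← ENNReal.ofReal_add (by positivity) (by positivity)]
  refine ENNReal.ofReal_le_ofReal (le_of_eq ?_)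
  ring

lemma evshal_indep {Ω : Type} [m0 : MeasurableSpace Ω] (P : Measure Ω) (X : ℕ → Ω → ℝ)
    (hI : IIDE P X) (N w u : ℕ) (D : ℝ) (q : ENNReal) (hu : 6 * w ≤ u)
    (hq : ∀ g, 6 * w ≤ g → P {ω | ¬ Shal (rE (EE X ω)) (mE N (EE X ω)) D w g} ≤ q) (m : ℕ) :
    P {ω | ∀ i < m, ¬ Shal (rE (EE X ω)) (mE N (EE X ω)) D w (u + 12 * w * i)} ≤ q ^ m := by
  have hprob := hI.prob
  induction m with
  | zero =>
    rw [pow_zero]
    exact prob_le_one
  | succ m ih =>
    set mm : ℕ → MeasurableSpace Ω := fun j => MeasurableSpace.comap (X j) inferInstance with hmm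
    have hle : ∀ j, mm j ≤ m0 := fun j => (hI.meas j).comap_le
    have hind : iIndep mm P := hI.indep
    set S : Set ℕ := {j | j + 6 * w < u + 12 * w * m} with hS
    set T : Set ℕ := {j | u + 12 * w * m ≤ j + 6 * w} with hT
    have hdis : Disjoint S T := by
      rw [Set.disjoint_left]
      intro j hj hj2
      have hj' : j + 6 * w < u + 12 * w * m := hj
      have hj2' : u + 12 * w * m ≤ j + 6 * w := hj2
      omega
    have h1 := indep_iSup_of_disjoint hle hind hdis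
    have hmS : ∀ j ∈ S, Measurable[⨆ j ∈ S, mm j] (X j) := fun j hj =>
      measurable_iff_comap_le.2 (le_iSup₂_of_le (f := fun j (_ : j ∈ S) => mm j) j hj le_rfl)
    have hmT : ∀ j ∈ T, Measurable[⨆ j ∈ T, mm j] (X j) := fun j hj =>
      measurable_iff_comap_le.2 (le_iSup₂_of_le (f := fun j (_ : j ∈ T) => mm j) j hj le_rfl)
    have h2 : MeasurableSet[⨆ j ∈ S, mm j] {ω | ∀ i < m,
        ¬ Shal (rE (EE X ω)) (mE N (EE X ω)) D w (u + 12 * w * i)} := by
      simp only [Set.ofPred_forall]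
      refine @MeasurableSet.iInter Ω ℕ (⨆ j ∈ S, mm j) _ _ fun i => ?_
      refine @MeasurableSet.iInter Ω (i < m) (⨆ j ∈ S, mm j) _ _ fun hi => ?_
      refine @MeasurableSet.compl Ω _ (⨆ j ∈ S, mm j) ?_
      refine @evshal_meas Ω (⨆ j ∈ S, mm j) X N w (u + 12 * w * i) D (by omega)
        (fun j hj1 hj2 => hmS j ?_)
      show j + 6 * w < u + 12 * w * m
      have h3 : 12 * w * (i + 1) ≤ 12 * w * m := Nat.mul_le_mul_left _ hi
      rw [mul_add] at h3
      omega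
    have h3 : MeasurableSet[⨆ j ∈ T, mm j] {ω |
        ¬ Shal (rE (EE X ω)) (mE N (EE X ω)) D w (u + 12 * w * m)} := by
      refine @MeasurableSet.compl Ω _ (⨆ j ∈ T, mm j) ?_
      exact @evshal_meas Ω (⨆ j ∈ T, mm j) X N w (u + 12 * w * m) D (by omega)
        (fun j hj1 hj2 => hmT j hj1)
    have h4 := (Indep_iff _ _ _).1 h1 _ _ h2 h3
    have h5 : {ω | ∀ i < m + 1, ¬ Shal (rE (EE X ω)) (mE N (EE X ω)) D w (u + 12 * w * i)} =
        {ω | ∀ i < m, ¬ Shal (rE (EE X ω)) (mE N (EE X ω)) D w (u + 12 * w * i)} ∩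
        {ω | ¬ Shal (rE (EE X ω)) (mE N (EE X ω)) D w (u + 12 * w * m)} := by
      ext ω
      constructor
      · intro h
        exact ⟨fun i hi => h i (by omega), h m (by omega)⟩
      · rintro ⟨h, h'⟩ i hi
        rcases Nat.lt_succ_iff_lt_or_eq.1 hi with h6 | h6
        · exact h i h6
        · rw [h6]; exact h'
    rw [h5, h4, pow_succ]
    exact mul_le_mul' ih (hq _ (by omega))

theorem st_EVSHAL (h1 : ST_MOMM) : ST_EVSHAL := by
  intro Ω _ P X θ hI hθ hθ1 hM ηp hηp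
  obtain ⟨C, θ', N1, hC, hθθ, hθ'1, hmom⟩ := h1 Ω P X θ hI hθ hθ1 hM
  have hlog : Tendsto (fun N : ℕ => Real.log (N : ℝ)) atTop atTop :=
    Real.tendsto_log_atTop.comp tendsto_natCast_atTop_atTop
  have e1 : ∀ᶠ N : ℕ in atTop, max 4 (468 * C) ≤ Real.log (N : ℝ) :=
    hlog.eventually_ge_atTop _
  have e2 : ∀ᶠ N : ℕ in atTop, max 3 (3 / ηp) ≤ (N : ℝ) :=
    tendsto_natCast_atTop_atTop.eventually_ge_atTop _
  obtain ⟨N2, hN2⟩ := eventually_atTop.1 (e1.and e2)
  refine ⟨max N1 N2, fun N w hN hw hwL => ?_⟩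
  obtain ⟨hL', hN'⟩ := hN2 N ((le_max_right _ _).trans hN)
  have hmomN := (hmom N ((le_max_left _ _).trans hN)).1
  set L := Real.log (N : ℝ) with hLdef
  have hL4 : 4 ≤ L := (le_max_left _ _).trans hL'
  have hLC : 468 * C ≤ L := (le_max_right _ _).trans hL'
  have hN3 : (3 : ℝ) ≤ N := (le_max_left _ _).trans hN'
  have hNη : 3 / ηp ≤ (N : ℝ) := (le_max_right _ _).trans hN'
  have hw1 : (1 : ℝ) ≤ w := by exact_mod_cast hw
  have hθ'0 : 0 < θ' := hθ.trans hθθ
  -- one spot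
  have hbd : ∀ n : ℕ, C * θ' ^ n ≤ C := fun n =>
    mul_le_of_le_one_right hC.le (pow_le_one₀ hθ'0.le hθ'1.le)
  have hsingle : ∀ g, 6 * w ≤ g →
      P {ω | ¬ Shal (rE (EE X ω)) (mE N (EE X ω)) (L ^ 7) w g} ≤
        ENNReal.ofReal (Real.exp (-1)) := by
    intro g hg
    refine (evshal_single P X hI N w g C (L ^ 7) hC (by positivity) hw hg
      (fun z x hzx => ((hmomN z x hzx).1).trans (ENNReal.ofReal_le_ofReal (hbd _)))
      (fun z hz => ((hmomN z z le_rfl).2.2 hz).trans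
        (ENNReal.ofReal_le_ofReal (hbd _)))).trans (ENNReal.ofReal_le_ofReal ?_)
    have h2 : (w : ℝ) ^ 2 ≤ L ^ 4 := by
      calc (w : ℝ) ^ 2 ≤ (L ^ 2) ^ 2 := by gcongr
        _ = L ^ 4 := by ring
    have h3 : 156 * (w : ℝ) ^ 2 * (C / L ^ 7) ≤ 1 / 3 := by
      rw [mul_div_assoc', div_le_div_iff₀ (by positivity) (by norm_num)]
      have h4 : L ≤ L ^ 3 := by
        calc L = L ^ 1 := (pow_one L).symm
          _ ≤ L ^ 3 := pow_le_pow_right₀ (by linarith) (by norm_num)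
      have h5 : 468 * C * L ^ 4 ≤ L ^ 3 * L ^ 4 :=
        mul_le_mul_of_nonneg_right (hLC.trans h4) (by positivity)
      calc 156 * (w : ℝ) ^ 2 * C * 3 = 468 * C * (w : ℝ) ^ 2 := by ring
        _ ≤ 468 * C * L ^ 4 := by gcongr
        _ ≤ L ^ 3 * L ^ 4 := h5
        _ = 1 * L ^ 7 := by ring
    refine h3.trans ?_
    rw [Real.exp_neg, ← one_div]
    exact one_div_le_one_div_of_le (Real.exp_pos _) (by
      have := Real.exp_one_lt_d9
      linarith)
  -- many spots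
  set q0 := ⌈L ^ 6⌉₊ with hq0
  set m := q0 / (12 * w) with hm
  have hm1 : 12 * w * m ≤ q0 := Nat.mul_div_le q0 (12 * w)
  have hm2 : 3 * L ≤ (m : ℝ) := by
    have h2 : q0 < 12 * w * (m + 1) := Nat.lt_mul_div_succ q0 (by omega)
    have h3 : (q0 : ℝ) < 12 * w * (m + 1) := by exact_mod_cast h2
    have h4 : L ^ 6 ≤ (q0 : ℝ) := Nat.le_ceil _
    have h5 : 12 * (w : ℝ) * (m + 1) ≤ 12 * L ^ 2 * (m + 1) := by gcongr
    have h6 : L ^ 6 < 12 * L ^ 2 * (m + 1) := by linarith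
    have h7 : L ^ 2 * L ^ 4 < L ^ 2 * (12 * (m + 1)) := by
      calc L ^ 2 * L ^ 4 = L ^ 6 := by ring
        _ < 12 * L ^ 2 * (m + 1) := h6
        _ = L ^ 2 * (12 * (m + 1)) := by ring
    have h8 : L ^ 4 < 12 * ((m : ℝ) + 1) := lt_of_mul_lt_mul_left h7 (by positivity)
    have h9 : 64 * L ≤ L ^ 4 := by
      have h10 : (4 : ℝ) ^ 3 ≤ L ^ 3 := by gcongr
      calc 64 * L = 4 ^ 3 * L := by norm_num
        _ ≤ L ^ 3 * L := by gcongr
        _ = L ^ 4 := by ring
    linarith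
  have hspots : ∀ u, 6 * w ≤ u → P {ω | ∀ i < m,
      ¬ Shal (rE (EE X ω)) (mE N (EE X ω)) (L ^ 7) w (u + 12 * w * i)} ≤
        ENNReal.ofReal (Real.exp (-(3 * L))) := by
    intro u hu
    refine (evshal_indep P X hI N w u (L ^ 7) _ hu hsingle m).trans ?_
    rw [← ENNReal.ofReal_pow (Real.exp_pos _).le, ← Real.exp_nat_mul]
    refine ENNReal.ofReal_le_ofReal (Real.exp_le_exp.2 ?_)
    linarith
  have hsub : {ω | ¬ ∀ u, 6 * w ≤ u → u + q0 + 6 * w ≤ N + 1 →
      ∃ g, u ≤ g ∧ g < u + q0 ∧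
        Shal (rE (EE X ω)) (mE N (EE X ω)) (L ^ 7) w g} ⊆
      ⋃ u ∈ Finset.range (N + 2), {ω | 6 * w ≤ u ∧ ∀ i < m,
        ¬ Shal (rE (EE X ω)) (mE N (EE X ω)) (L ^ 7) w (u + 12 * w * i)} := by
    intro ω hω
    have hω' : ¬ ∀ u, 6 * w ≤ u → u + q0 + 6 * w ≤ N + 1 →
      ∃ g, u ≤ g ∧ g < u + q0 ∧
        Shal (rE (EE X ω)) (mE N (EE X ω)) (L ^ 7) w g := hω
    push Not at hω'
    obtain ⟨u, hu1, hu2, hu3⟩ := hω'
    refine Set.mem_biUnion (x := u) ?_ ⟨hu1, fun i hi => ?_⟩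
    · rw [Finset.mem_coe, Finset.mem_range]
      omega
    · refine hu3 _ (by omega) ?_
      have h3 : 12 * w * (i + 1) ≤ 12 * w * m := Nat.mul_le_mul_left _ hi
      rw [mul_add] at h3
      omega
  have hu' : ∀ u ∈ Finset.range (N + 2), P {ω | 6 * w ≤ u ∧ ∀ i < m,
        ¬ Shal (rE (EE X ω)) (mE N (EE X ω)) (L ^ 7) w (u + 12 * w * i)} ≤
        ENNReal.ofReal (Real.exp (-(3 * L))) := by
    intro u _
    by_cases hu : 6 * w ≤ u
    · exact (measure_mono (fun ω hω => hω.2)).trans (hspots u hu)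
    · have h3 : {ω | 6 * w ≤ u ∧ ∀ i < m,
        ¬ Shal (rE (EE X ω)) (mE N (EE X ω)) (L ^ 7) w (u + 12 * w * i)} = ∅ := by
        ext ω
        simp [hu]
      rw [h3, measure_empty]
      exact zero_le
  refine (measure_mono hsub).trans ((measure_biUnion_finset_le _ _).trans
    ((Finset.sum_le_sum hu').trans ?_))
  rw [Finset.sum_const, Finset.card_range, nsmul_eq_mul, ← ENNReal.ofReal_natCast,
    ← ENNReal.ofReal_mul (by positivity)]
  refine ENNReal.ofReal_le_ofReal ?_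
  have hNpos : (0 : ℝ) < N := by linarith
  have hexp : Real.exp (-(3 * L)) = 1 / (N : ℝ) ^ 3 := by
    have h2 : Real.exp L = N := Real.exp_log hNpos
    rw [Real.exp_neg, show 3 * L = ((3 : ℕ) : ℝ) * L by norm_num, Real.exp_nat_mul, h2, one_div]
  rw [hexp, mul_one_div, div_le_iff₀ (by positivity)]
  have h3 : 3 ≤ ηp * N := by
    rw [div_le_iff₀ hηp] at hNη
    linarith
  push_cast
  have h4 : (N : ℝ) ≤ (N : ℝ) ^ 2 := by nlinarith
  calc (N : ℝ) + 2 ≤ 3 * N := by linarith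
    _ ≤ 3 * (N : ℝ) ^ 2 := by linarith
    _ ≤ (ηp * N) * (N : ℝ) ^ 2 := by gcongr
    _ = ηp * (N : ℝ) ^ 3 := by ring

end Pool.Agent.Helper98.EX
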