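import Mathlib
import Pool.Agent.Helper98.EY.StmtsB

set_option autoImplicit false

namespace Pool.Agent.Helper98.EX

open MeasureTheory ProbabilityTheory Filter Topology

/-- the value of one splitting -/
noncomputable def excapV (b y : ℕ) (e : ℕ → ℝ) : ℝ :=
  max (vp (rE e) (lE e) (y + 1) (b + 1)) (vh (rE e) (lE e) 1 (y + 1))

/-- the best splitting of a window -/
noncomputable def excapG (b : ℕ) : (ℕ → ℝ) → ℝ :=
  (Finset.range (b + 1)).inf' Finset.nonempty_range_add_one (fun y => excapV b y)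

/-- the worst window -/
noncomputable def excapF (W : ℕ) : (ℕ → ℝ) → ℝ :=
  (Finset.range (W + 1)).sup' Finset.nonempty_range_add_one (fun b => excapG b)

lemma excap_lt (W : ℕ) (e : ℕ → ℝ) (v : ℝ) :
    v < excapF W e ↔ ∃ b, b ≤ W ∧ ∀ y, y ≤ b → v < excapV b y e := by
  unfold excapF
  rw [Finset.sup'_apply, Finset.lt_sup'_iff]
  constructor
  · rintro ⟨b, hb, h⟩
    unfold excapG at h
    rw [Finset.inf'_apply, Finset.lt_inf'_iff] at h
    exact ⟨b, by rw [Finset.mem_range] at hb; omega, fun y hy => h y (Finset.mem_range.2 (by omega))⟩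
  · rintro ⟨b, hb, h⟩
    refine ⟨b, Finset.mem_range.2 (by omega), ?_⟩
    unfold excapG
    rw [Finset.inf'_apply, Finset.lt_inf'_iff]
    exact fun y hy => h y (by rw [Finset.mem_range] at hy; omega)

lemma excap_measRR (z x : ℕ) : Measurable (fun e : ℕ → ℝ => RR (rE e) (lE e) z x) := by
  unfold RR
  refine Finset.measurable_fun_prod _ fun b _ => ?_
  have h1 : Measurable (fun e : ℕ → ℝ => lE e b) := measurable_const.sub (measurable_pi_apply b)
  have h2 : Measurable (fun e : ℕ → ℝ => rE e b) := measurable_pi_apply (b - 1)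
  exact h1.div h2

lemma excap_meas (W : ℕ) : Measurable (excapF W) := by
  unfold excapF
  refine Finset.measurable_sup' _ fun b _ => ?_
  unfold excapG
  refine Finset.inf'_induction _ _ (fun f hf g hg => hf.inf hg) fun y _ => ?_
  unfold excapV
  refine Measurable.max ?_ ?_
  · unfold vp
    exact (excap_measRR _ _).div (measurable_pi_apply _)
  · unfold vh
    exact (excap_measRR _ _).div (measurable_pi_apply _)

lemma excap_loc (W : ℕ) (e e' : ℕ → ℝ) (h : ∀ i, i < W + 2 → e i = e' i) :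
    excapF W e = excapF W e' := by
  have hRR : ∀ z x, x < W + 2 → RR (rE e) (lE e) z x = RR (rE e') (lE e') z x := by
    intro z x hx
    unfold RR
    refine Finset.prod_congr rfl fun b hb => ?_
    rw [Finset.mem_Ioc] at hb
    have h1 : lE e b = lE e' b := by unfold lE; rw [h b (by omega)]
    have h2 : rE e b = rE e' b := h (b - 1) (by omega)
    rw [h1, h2]
  have hV : ∀ b y, b ≤ W → y ≤ b → excapV b y e = excapV b y e' := by
    intro b y hb hy
    unfold excapV vp vh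
    rw [hRR _ _ (by omega), hRR _ _ (by omega)]
    have h1 : rE e (b + 1 + 1) = rE e' (b + 1 + 1) := h (b + 1) (by omega)
    have h2 : rE e 1 = rE e' 1 := h 0 (by omega)
    rw [h1, h2]
  refine le_antisymm ?_ ?_
  · refine le_of_forall_lt fun v hv => ?_
    rw [excap_lt] at hv ⊢
    obtain ⟨b, hb, h3⟩ := hv
    exact ⟨b, hb, fun y hy => by rw [← hV b y hb hy]; exact h3 y hy⟩
  · refine le_of_forall_lt fun v hv => ?_
    rw [excap_lt] at hv ⊢
    obtain ⟨b, hb, h3⟩ := hv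
    exact ⟨b, hb, fun y hy => by rw [hV b y hb hy]; exact h3 y hy⟩

lemma excap_shift (x : ℕ → ℝ) (z y b : ℕ) :
    RR (rE (fun i => x (z + i))) (lE (fun i => x (z + i))) y b =
      RR (rE x) (lE x) (z + y) (z + b) := by
  unfold RR
  rw [← Finset.map_add_left_Ioc y b z, Finset.prod_map]
  refine Finset.prod_congr rfl fun c hc => ?_
  rw [Finset.mem_Ioc] at hc
  show (1 - x (z + c)) / x (z + (c - 1)) = (1 - x (z + c)) / x (z + c - 1)
  rw [Nat.add_sub_assoc (by omega)]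

lemma excap_shiftV (x : ℕ → ℝ) (z b y : ℕ) :
    excapV b y (fun i => x (z + i)) =
      max (vp (rE x) (lE x) (z + 1 + y) (z + 1 + b)) (vh (rE x) (lE x) (z + 1) (z + 1 + y)) := by
  unfold excapV vp vh
  rw [excap_shift, excap_shift]
  have h1 : rE (fun i => x (z + i)) (b + 1 + 1) = rE x (z + 1 + b + 1) := by
    show x (z + (b + 1 + 1 - 1)) = x (z + 1 + b + 1 - 1)
    congr 1
    omega
  have h2 : rE (fun i => x (z + i)) 1 = rE x (z + 1) := by
    show x (z + (1 - 1)) = x (z + 1 - 1)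
    congr 1
  rw [h1, h2, show z + (y + 1) = z + 1 + y by omega, show z + (b + 1) = z + 1 + b by omega]

lemma excap_le (x : ℕ → ℝ) (N : ℕ) (hx : ∀ i, 0 < x i ∧ x i ≤ 1) (z y : ℕ) :
    RR (rE x) (lE x) z y ≤ RR (rE x) (mE N x) z y := by
  unfold RR
  refine Finset.prod_le_prod (fun b _ => ?_) (fun b _ => ?_)
  · exact div_nonneg (sub_nonneg.2 (hx b).2) (hx (b - 1)).1.le
  · exact div_le_div_of_nonneg_right (le_max_left _ _) (hx (b - 1)).1.le

lemma excap_markov {Ω : Type} [MeasurableSpace Ω] (P : Measure Ω) (f g : Ω → ℝ)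
    (hf : Measurable f) (hfg : ∀ ω, f ω ≤ g ω) (C D : ℝ) (hD : 0 < D)
    (h : ∫⁻ ω, ENNReal.ofReal (g ω) ∂P ≤ ENNReal.ofReal C) :
    P {ω | D < f ω} ≤ ENNReal.ofReal (C / D) := by
  have h1 : {ω | D < f ω} ⊆ {ω | ENNReal.ofReal D ≤ ENNReal.ofReal (f ω)} := fun ω hω =>
    ENNReal.ofReal_le_ofReal (le_of_lt hω)
  refine (measure_mono h1).trans ?_
  refine (meas_ge_le_lintegral_div hf.ennreal_ofReal.aemeasurable
    (ENNReal.ofReal_pos.2 hD).ne' ENNReal.ofReal_ne_top).trans ?_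
  rw [ENNReal.ofReal_div_of_pos hD]
  refine ENNReal.div_le_div_right ((lintegral_mono fun ω => ?_).trans h) _
  exact ENNReal.ofReal_le_ofReal (hfg ω)

/-- the deterministic part -/
lemma excap_det (x : ℕ → ℝ) (N W : ℕ) (c2 L8 v0 κ : ℝ) (hW : (W : ℝ) ≤ L8)
    (hWf : ∀ n : ℕ, (n : ℝ) ≤ L8 → n ≤ W) (hκ : v0 ≤ κ)
    (h1 : ∀ z, z + (W + 2) ≤ N → v0 < excapF W (fun i => x (z + i)) →
      ∃ z' : ℕ, c2 * N ≤ z' ∧ (z' : ℝ) + ((W + 2 : ℕ) : ℝ) ≤ (1 - c2) * N ∧
        excapF W (fun i => x (z + i)) ≤ excapF W (fun i => x (z' + i)))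
    (h2 : ∀ y b, N - W ≤ y → y ≤ b → b < N → vp (rE x) (lE x) y b ≤ v0)
    (h3 : ∀ y, N - W ≤ y → 1 ≤ y → y < N → vh (rE x) (lE x) y y ≤ v0)
    (hbulk : ∀ A B : ℕ, c2 * N ≤ A → A ≤ B → (B : ℝ) ≤ A + L8 →
        (B : ℝ) + 1 ≤ (1 - c2) * N → ∃ y, A ≤ y ∧ y ≤ B ∧
        vp (rE x) (lE x) y B ≤ κ ∧ vh (rE x) (lE x) A y ≤ κ)
    (A B : ℕ) (hA : 1 ≤ A) (hAB : A ≤ B) (hB : B + 1 < N) (hBA : (B : ℝ) ≤ A + L8) :
    ∃ y, A ≤ y ∧ y ≤ B ∧ vp (rE x) (lE x) y B ≤ κ ∧ vh (rE x) (lE x) A y ≤ κ := by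
  have hBW : B - A ≤ W := by
    refine hWf _ ?_
    rw [Nat.cast_sub hAB]
    linarith
  by_cases hcase : A - 1 + (W + 2) ≤ N
  · by_contra hcon
    push Not at hcon
    have hzA : A - 1 + 1 = A := by omega
    have hlt : κ < excapF W (fun i => x (A - 1 + i)) := by
      rw [excap_lt]
      refine ⟨B - A, hBW, fun y hy => ?_⟩
      rw [excap_shiftV, hzA, show A + (B - A) = B by omega]
      by_contra hcon2
      rw [not_lt, max_le_iff] at hcon2
      exact absurd hcon2.2 (not_le.2 (hcon (A + y) (by omega) (by omega) hcon2.1))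
    obtain ⟨z', hz1, hz2, hz3⟩ := h1 (A - 1) hcase (hκ.trans_lt hlt)
    have hlt2 := hlt.trans_le hz3
    rw [excap_lt] at hlt2
    obtain ⟨b, hb, h4⟩ := hlt2
    have hbR : (b : ℝ) ≤ W := by exact_mod_cast hb
    push_cast at hz2
    obtain ⟨y, hy1, hy2, hy3, hy4⟩ := hbulk (z' + 1) (z' + 1 + b) (by push_cast; linarith)
      (by omega) (by push_cast; linarith) (by push_cast; linarith)
    have h5 := h4 (y - (z' + 1)) (by omega)
    rw [excap_shiftV, show z' + 1 + (y - (z' + 1)) = y by omega] at h5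
    exact absurd (max_le hy3 hy4) (not_le.2 h5)
  · refine ⟨A, le_refl _, hAB, (h2 A B (by omega) hAB (by omega)).trans hκ,
      (h3 A (by omega) hA (by omega)).trans hκ⟩

theorem st_EXCAP (hexg : ST_EXG) (hmomm : ST_MOMM) : ST_EXCAP := by
  intro Ω _ P X θ hI hθ hθ1 hM ηp hηp
  obtain ⟨c2, hc0, hc4, hEX⟩ := hexg Ω P X hI (ηp / 2) (half_pos hηp)
  refine ⟨c2, hc0, hc4, fun γ hγ => ?_⟩
  obtain ⟨N1, hN1⟩ := hEX (γ / 2) (half_pos hγ)
  obtain ⟨C, θ', N2, hC, hθθ, hθ'1, hmom⟩ := hmomm Ω P X θ hI hθ hθ1 hM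
  have hθ'0 : 0 < θ' := hθ.trans hθθ
  set c : ℝ := min (1 / (4 * C)) (ηp / (8 * C)) with hc
  have hcpos : 0 < c := by positivity
  have hc1 : 4 * C * c ≤ 1 := by
    have h1 : c ≤ 1 / (4 * C) := min_le_left _ _
    rw [le_div_iff₀ (by positivity)] at h1
    linarith
  have hc2 : 8 * C * c ≤ ηp := by
    have h1 : c ≤ ηp / (8 * C) := min_le_right _ _
    rw [le_div_iff₀ (by positivity)] at h1
    linarith
  have hlog : Tendsto (fun N : ℕ => Real.log (N : ℝ)) atTop atTop :=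
    Real.tendsto_log_atTop.comp tendsto_natCast_atTop_atTop
  have e1 : ∀ᶠ N : ℕ in atTop, 3 ≤ Real.log (N : ℝ) := hlog.eventually_ge_atTop _
  have e2 : ∀ᶠ N : ℕ in atTop, (1 : ℝ) ≤ (N : ℝ) :=
    tendsto_natCast_atTop_atTop.eventually_ge_atTop _
  have e3 : ∀ᶠ N : ℕ in atTop, ‖Real.log (N : ℝ) ^ (16 : ℝ)‖ ≤ c * ‖(N : ℝ) ^ (γ / 2)‖ :=
    tendsto_natCast_atTop_atTop.eventually
      ((isLittleO_log_rpow_rpow_atTop 16 (half_pos hγ)).bound hcpos)
  obtain ⟨N3, hN3⟩ := eventually_atTop.1 (e1.and (e2.and e3))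
  refine ⟨max N1 (max N2 N3), fun N hN => ?_⟩
  have hNN1 : N1 ≤ N := (le_max_left _ _).trans hN
  have hNN2 : N2 ≤ N := ((le_max_left _ _).trans (le_max_right _ _)).trans hN
  have hNN3 : N3 ≤ N := ((le_max_right _ _).trans (le_max_right _ _)).trans hN
  obtain ⟨hL3, hN1', hpow⟩ := hN3 N hNN3
  have hmomN := (hmom N hNN2).1
  set L := Real.log (N : ℝ) with hLdef
  have hL0 : 0 < L := by linarith
  set v0 : ℝ := (N : ℝ) ^ γ with hv0
  have hNpos : (0 : ℝ) < N := by linarith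
  have hv0pos : 0 < v0 := Real.rpow_pos_of_pos hNpos _
  set v1 : ℝ := (N : ℝ) ^ (γ / 2) with hv1
  have hv1pos : 0 < v1 := Real.rpow_pos_of_pos hNpos _
  have hv1ge : 1 ≤ v1 := Real.one_le_rpow hN1' (half_pos hγ).le
  have hv01 : v0 = v1 * v1 := by
    rw [hv0, hv1, ← Real.rpow_add hNpos, add_halves]
  have hL16 : L ^ 16 ≤ c * v1 := by
    have h1 : L ^ (16 : ℝ) = L ^ 16 := by
      rw [show (16 : ℝ) = ((16 : ℕ) : ℝ) by norm_num, Real.rpow_natCast]
    rw [h1, Real.norm_of_nonneg (by positivity), Real.norm_of_nonneg hv1pos.le] at hpow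
    exact hpow
  set W := ⌊L ^ 8⌋₊ with hW
  have hWle : (W : ℝ) ≤ L ^ 8 := Nat.floor_le (by positivity)
  have hL8 : 2 ≤ L ^ 8 := by
    have h1 : (3 : ℝ) ^ 8 ≤ L ^ 8 := by gcongr
    norm_num at h1
    linarith
  have hWR : ((W + 2 : ℕ) : ℝ) ≤ L ^ 9 := by
    push_cast
    have h1 : 3 * L ^ 8 ≤ L * L ^ 8 := by gcongr
    have h2 : L * L ^ 8 = L ^ 9 := by ring
    linarith
  have hbd : ∀ n : ℕ, C * θ' ^ n ≤ C := fun n =>
    mul_le_of_le_one_right hC.le (pow_le_one₀ hθ'0.le hθ'1.le)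
  have hx : ∀ ω i, 0 < EE X ω i ∧ EE X ω i ≤ 1 := fun ω i => hI.rng i ω
  have hmeasE : Measurable (fun ω => EE X ω) := measurable_pi_lambda _ fun i => hI.meas i
  -- single values
  have hvp : ∀ z y, z ≤ y → P {ω | v0 < vp (rE (EE X ω)) (lE (EE X ω)) z y} ≤
      ENNReal.ofReal (C / v0) := by
    intro z y hzy
    refine excap_markov P _ (fun ω => vp (rE (EE X ω)) (mE N (EE X ω)) z y) ?_ ?_ C v0 hv0pos
      (((hmomN z y hzy).2.1).trans (ENNReal.ofReal_le_ofReal (hbd _)))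
    · unfold vp
      exact ((excap_measRR z y).comp hmeasE).div (hI.meas y)
    · intro ω
      exact div_le_div_of_nonneg_right (excap_le _ N (hx ω) z y) (hx ω _).1.le
  have hvh : ∀ z y, 1 ≤ z → z ≤ y → P {ω | v0 < vh (rE (EE X ω)) (lE (EE X ω)) z y} ≤
      ENNReal.ofReal (C / v0) := by
    intro z y hz hzy
    refine excap_markov P _ (fun ω => vh (rE (EE X ω)) (mE N (EE X ω)) z y) ?_ ?_ C v0 hv0pos
      (((hmomN z y hzy).2.2 hz).trans (ENNReal.ofReal_le_ofReal (hbd _)))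
    · unfold vh
      exact ((excap_measRR z y).comp hmeasE).div (hI.meas (z - 1))
    · intro ω
      exact div_le_div_of_nonneg_right (excap_le _ N (hx ω) z y) (hx ω _).1.le
  -- the local functional is rarely large
  have hF : P {ω | v0 < excapF W (fun i => X i ω)} ≤
      ENNReal.ofReal ((N : ℝ) ^ (-(γ / 2))) := by
    have hsub : {ω | v0 < excapF W (fun i => X i ω)} ⊆
        (⋃ b ∈ Finset.range (W + 1), {ω | v0 < vp (rE (EE X ω)) (lE (EE X ω)) 1 (b + 1)}) ∪
        {ω | v0 < vh (rE (EE X ω)) (lE (EE X ω)) 1 1} := by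
      intro ω hω
      have hω' : v0 < excapF W (fun i => X i ω) := hω
      rw [excap_lt] at hω'
      obtain ⟨b, hb, h1⟩ := hω'
      have h2 := h1 0 (Nat.zero_le _)
      unfold excapV at h2
      rcases lt_max_iff.1 h2 with h3 | h3
      · left
        refine Set.mem_biUnion (x := b) ?_ h3
        rw [Finset.mem_coe, Finset.mem_range]
        omega
      · right
        exact h3
    refine (measure_mono hsub).trans ((measure_union_le _ _).trans ?_)
    refine (add_le_add ((measure_biUnion_finset_le _ _).trans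
      (Finset.sum_le_sum fun b _ => hvp 1 (b + 1) (by omega))) (hvh 1 1 le_rfl le_rfl)).trans ?_
    rw [Finset.sum_const, Finset.card_range, nsmul_eq_mul, ← ENNReal.ofReal_natCast,
      ← ENNReal.ofReal_mul (by positivity), ← ENNReal.ofReal_add (by positivity) (by positivity)]
    refine ENNReal.ofReal_le_ofReal ?_
    rw [Real.rpow_neg hNpos.le, ← hv1, hv01]
    push_cast
    have h1 : ((W : ℝ) + 1) * (C / (v1 * v1)) + C / (v1 * v1) =
        ((W : ℝ) + 2) * C / (v1 * v1) := by ring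
    rw [h1, div_le_iff₀ (by positivity), inv_mul_cancel_left₀ hv1pos.ne']
    have h2 : (W : ℝ) + 2 ≤ 2 * L ^ 16 := by
      have h3 : L ^ 8 ≤ L ^ 16 := pow_le_pow_right₀ (by linarith) (by norm_num)
      linarith
    calc ((W : ℝ) + 2) * C ≤ (2 * L ^ 16) * C := by gcongr
      _ ≤ (2 * (c * v1)) * C := by gcongr
      _ = (4 * C * c) / 2 * v1 := by ring
      _ ≤ 1 / 2 * v1 := by gcongr
      _ ≤ v1 := by linarith
  have hE1 := hN1 N (W + 2) (excapF W) v0 hNN1 hWR (excap_meas W) (excap_loc W) hF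
  -- values near the right end
  set s : Finset ℕ := Finset.Ico (N - W) N with hs
  have hscard : s.card ≤ W := by
    rw [hs, Nat.card_Ico]; omega
  set A1 : ℕ × ℕ → Set Ω := fun q =>
    {ω | q.1 ≤ q.2 ∧ v0 < vp (rE (EE X ω)) (lE (EE X ω)) q.1 q.2} with hA1
  set A2 : ℕ → Set Ω := fun y =>
    {ω | 1 ≤ y ∧ v0 < vh (rE (EE X ω)) (lE (EE X ω)) y y} with hA2
  have hA1P : ∀ q ∈ s ×ˢ s, P (A1 q) ≤ ENNReal.ofReal (C / v0) := by
    intro q _
    by_cases hq : q.1 ≤ q.2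
    · exact (measure_mono (fun ω hω => hω.2)).trans (hvp q.1 q.2 hq)
    · have h3 : A1 q = ∅ := by
        ext ω
        simp [hA1, hq]
      rw [h3, measure_empty]
      exact zero_le
  have hA2P : ∀ y ∈ s, P (A2 y) ≤ ENNReal.ofReal (C / v0) := by
    intro y _
    by_cases hy : 1 ≤ y
    · exact (measure_mono (fun ω hω => hω.2)).trans (hvh y y hy le_rfl)
    · have h3 : A2 y = ∅ := by
        ext ω
        simp [hA2, hy]
      rw [h3, measure_empty]
      exact zero_le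
  have hE2 : P ((⋃ q ∈ s ×ˢ s, A1 q) ∪ ⋃ y ∈ s, A2 y) ≤ ENNReal.ofReal (ηp / 2) := by
    refine (measure_union_le _ _).trans ?_
    refine (add_le_add ((measure_biUnion_finset_le _ _).trans (Finset.sum_le_sum hA1P))
      ((measure_biUnion_finset_le _ _).trans (Finset.sum_le_sum hA2P))).trans ?_
    rw [Finset.sum_const, Finset.sum_const, Finset.card_product, nsmul_eq_mul, nsmul_eq_mul,
      ← ENNReal.ofReal_natCast, ← ENNReal.ofReal_natCast,
      ← ENNReal.ofReal_mul (by positivity), ← ENNReal.ofReal_mul (by positivity),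
      ← ENNReal.ofReal_add (by positivity) (by positivity)]
    refine ENNReal.ofReal_le_ofReal ?_
    have h1 : ((s.card : ℕ) : ℝ) ≤ L ^ 8 := by
      have : ((s.card : ℕ) : ℝ) ≤ W := by exact_mod_cast hscard
      linarith
    have h2 : ((s.card * s.card : ℕ) : ℝ) ≤ L ^ 16 := by
      push_cast
      calc (s.card : ℝ) * s.card ≤ L ^ 8 * L ^ 8 := by gcongr
        _ = L ^ 16 := by ring
    have h3 : ((s.card : ℕ) : ℝ) ≤ L ^ 16 :=
      h1.trans (pow_le_pow_right₀ (by linarith) (by norm_num))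
    calc ((s.card * s.card : ℕ) : ℝ) * (C / v0) + (s.card : ℝ) * (C / v0)
        ≤ L ^ 16 * (C / v0) + L ^ 16 * (C / v0) := by gcongr
      _ = 2 * C * L ^ 16 / v0 := by ring
      _ ≤ 2 * C * (c * v1) / v0 := by gcongr
      _ = (8 * C * c) / 4 / v1 := by rw [hv01]; field_simp; ring
      _ ≤ ηp / 4 / v1 := by gcongr
      _ ≤ ηp / 4 := div_le_self (by positivity) hv1ge
      _ ≤ ηp / 2 := by linarith
  refine (measure_mono (t := {ω | ∃ z : ℕ, z + (W + 2) ≤ N ∧
      v0 < excapF W (fun i => X (z + i) ω) ∧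
      ¬ ∃ z' : ℕ, c2 * N ≤ z' ∧ (z' : ℝ) + ((W + 2 : ℕ) : ℝ) ≤ (1 - c2) * N ∧
      excapF W (fun i => X (z + i) ω) ≤ excapF W (fun i => X (z' + i) ω)} ∪
      ((⋃ q ∈ s ×ˢ s, A1 q) ∪ ⋃ y ∈ s, A2 y)) ?_).trans
    ((measure_union_le _ _).trans ((add_le_add hE1 hE2).trans ?_))
  · intro ω hω
    by_contra hcon
    rw [Set.mem_union, Set.mem_union, not_or, not_or] at hcon
    obtain ⟨hc1', hc2', hc3'⟩ := hcon
    refine hω fun κ hκ hbulk A B hA hAB hB hBA => ?_
    refine excap_det (EE X ω) N W c2 (L ^ 8) v0 κ hWle (fun n hn => Nat.le_floor hn) hκ ?_ ?_ ?_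
      hbulk A B hA hAB hB hBA
    · intro z hz hvz
      by_contra hcon2
      exact hc1' ⟨z, hz, hvz, hcon2⟩
    · intro y b hy hyb hb
      by_contra hlt
      refine hc2' (Set.mem_biUnion (x := (y, b)) ?_ ⟨hyb, not_le.1 hlt⟩)
      rw [Finset.mem_coe, Finset.mem_product, hs, Finset.mem_Ico, Finset.mem_Ico]
      dsimp only
      omega
    · intro y hy hy1 hyN
      by_contra hlt
      refine hc3' (Set.mem_biUnion (x := y) ?_ ⟨hy1, not_le.1 hlt⟩)
      rw [Finset.mem_coe, hs, Finset.mem_Ico]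
      omega
  · rw [← ENNReal.ofReal_add (by positivity) (by positivity), add_halves]

end Pool.Agent.Helper98.EX
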